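import Mathlib

/-!
# Eventual uniqueness of the compressing polynomial fails for every `K ≥ 3` (MP_29b953_an, Q1)

Let `T = 4 x ^ 3 - 3 x`, `n ≥ 2` even and `θ = π / (3 ^ n - 1)`. The orbit of `cos θ` under `T` is
a cycle `S` with `2 n` elements, `T ^ n = -id` on `S`, and `S` is also one cycle of `-T`.
-/

set_option autoImplicit false

open Polynomial

namespace Pool.Agent.Results.MP_29b953_an.SignedCubic

/-- `f` is a compressing function for the finite set `S`: with `N = |S|`, the set `S` is the set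
`{x₀, f(x₀), …, f^(N-1)(x₀)}` for some `x₀ ∈ S`. -/
def IsCompressing (f : ℝ[X]) (S : Finset ℝ) : Prop :=
  ∃ x₀ ∈ S, (S : Set ℝ) = {x | ∃ i < S.card, (fun y => f.eval y)^[i] x₀ = x}

/-- `S` is `K`-compressible: some real polynomial of degree at most `K` is a compressing function
for `S`. -/
def IsCompressible (K : ℕ) (S : Finset ℝ) : Prop :=
  ∃ f : ℝ[X], f.natDegree ≤ K ∧ IsCompressing f S

/-- at most one polynomial of degree between `2` and `K` is a compressing function for `S` -/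
def AtMostOneCompressing (K : ℕ) (S : Finset ℝ) : Prop :=
  ∀ f g : ℝ[X], 2 ≤ f.natDegree → f.natDegree ≤ K → 2 ≤ g.natDegree → g.natDegree ≤ K →
    IsCompressing f S → IsCompressing g S → f = g

/-- the angle -/
noncomputable def ang (n : ℕ) : ℝ := Real.pi / (3 ^ n - 1)

/-- the orbit -/
noncomputable def u (n i : ℕ) : ℝ := Real.cos (3 ^ i * ang n)

/-- the cubic -/
noncomputable def T : ℝ[X] := C 4 * X ^ 3 - C 3 * X

lemma eval_T (x : ℝ) : T.eval x = 4 * x ^ 3 - 3 * x := by simp [T]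

lemma natDegree_T : T.natDegree = 3 := by
  unfold T
  compute_degree!

lemma eval_T_u (n i : ℕ) : T.eval (u n i) = u n (i + 1) := by
  rw [eval_T, u, u, ← Real.cos_three_mul]
  congr 1
  ring

lemma iterate_T (n i : ℕ) : (fun y => T.eval y)^[i] (u n 0) = u n i := by
  induction i with
  | zero => rfl
  | succ i ih => rw [Function.iterate_succ_apply', ih, eval_T_u]

lemma eval_negT (x : ℝ) : (-T).eval x = -(T.eval x) := by simp

lemma eval_T_neg (x : ℝ) : T.eval (-x) = -(T.eval x) := by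
  rw [eval_T, eval_T]; ring

lemma iterate_negT (n i : ℕ) : (fun y => (-T).eval y)^[i] (u n 0) = (-1) ^ i * u n i := by
  induction i with
  | zero => simp
  | succ i ih =>
    rw [Function.iterate_succ_apply', ih]
    simp only [eval_negT]
    rcases Nat.even_or_odd i with h | h
    · rw [h.neg_one_pow, one_mul, eval_T_u, pow_succ, h.neg_one_pow]; ring
    · rw [h.neg_one_pow, neg_one_mul, eval_T_neg, eval_T_u, pow_succ, h.neg_one_pow]; ring

lemma three_pow_gt {n : ℕ} (hn : 2 ≤ n) : (9 : ℝ) ≤ 3 ^ n := by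
  calc (9 : ℝ) = 3 ^ 2 := by norm_num
    _ ≤ 3 ^ n := pow_le_pow_right₀ (by norm_num) hn

lemma u_add {n : ℕ} (hn : 2 ≤ n) (i : ℕ) : u n (i + n) = -u n i := by
  have h9 := three_pow_gt hn
  have h1 : (3 : ℝ) ^ (i + n) * ang n = 3 ^ i * ang n + 3 ^ i * Real.pi := by
    have : (3 : ℝ) ^ n - 1 ≠ 0 := by linarith
    rw [ang, pow_add]
    field_simp
    ring
  rw [u, u, h1]
  obtain ⟨k, hk⟩ : Odd ((3 : ℕ) ^ i) := Odd.pow (by decide)
  have h2 : (3 : ℝ) ^ i * Real.pi = k * (2 * Real.pi) + Real.pi := by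
    have : (3 : ℝ) ^ i = 2 * k + 1 := by exact_mod_cast hk
    rw [this]; ring
  rw [h2, ← add_assoc, Real.cos_add_pi, Real.cos_add_nat_mul_two_pi]

lemma u_add_two {n : ℕ} (hn : 2 ≤ n) (i : ℕ) : u n (i + 2 * n) = u n i := by
  rw [two_mul, ← add_assoc, u_add hn, u_add hn, neg_neg]

lemma ang_pos {n : ℕ} (hn : 2 ≤ n) : 0 < ang n := by
  have h9 := three_pow_gt hn
  have : (0 : ℝ) < 3 ^ n - 1 := by linarith
  exact div_pos Real.pi_pos this

lemma ang_eq {n : ℕ} (hn : 2 ≤ n) : Real.pi = (3 ^ n - 1) * ang n := by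
  have h9 := three_pow_gt hn
  have : (3 : ℝ) ^ n - 1 ≠ 0 := by linarith
  rw [ang]; field_simp

/-- `3 ^ i + 1 < 3 ^ n - 1` for `i < n` -/
lemma pow_bound {n i : ℕ} (hn : 2 ≤ n) (hi : i < n) : (3 : ℝ) ^ i + 1 < 3 ^ n - 1 := by
  have h9 := three_pow_gt hn
  have h1 : (3 : ℝ) ^ (i + 1) ≤ 3 ^ n := pow_le_pow_right₀ (by norm_num) hi
  rw [pow_succ] at h1
  linarith

lemma u_ne {n m : ℕ} (hn : 2 ≤ n) (hm : 0 < m) (hm2 : m < 2 * n) : u n m ≠ u n 0 := by
  have hθ := ang_pos hn
  have hπ := ang_eq hn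
  have h9 := three_pow_gt hn
  have h0mem : (3 : ℝ) ^ 0 * ang n ∈ Set.Icc 0 Real.pi := by
    refine ⟨by positivity, ?_⟩
    rw [hπ]
    gcongr
    linarith
  rcases lt_trichotomy m n with h | h | h
  · intro heq
    have hb := pow_bound hn h
    have h1 : (3 : ℝ) ^ m * ang n ∈ Set.Icc 0 Real.pi := by
      refine ⟨by positivity, ?_⟩
      rw [hπ]
      gcongr
      linarith
    have h2 := Real.injOn_cos h1 h0mem heq
    have h3 := mul_right_cancel₀ hθ.ne' h2
    have h4 : (1 : ℝ) < 3 ^ m := one_lt_pow₀ (by norm_num) hm.ne'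
    rw [pow_zero] at h3
    linarith
  · intro heq
    have h1 := u_add hn 0
    rw [h] at heq
    rw [zero_add, heq] at h1
    have h2 : 0 < u n 0 := by
      apply Real.cos_pos_of_mem_Ioo
      constructor
      · have : 0 < (3 : ℝ) ^ 0 * ang n := by positivity
        linarith [Real.pi_pos]
      · rw [pow_zero, hπ]
        nlinarith
    linarith
  · intro heq
    obtain ⟨i, rfl⟩ : ∃ i, m = i + n := ⟨m - n, by omega⟩
    have hi : i < n := by omega
    have hb := pow_bound hn hi
    rw [u_add hn] at heq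
    have h1 : Real.pi - (3 : ℝ) ^ i * ang n ∈ Set.Icc 0 Real.pi := by
      have : 0 < (3 : ℝ) ^ i * ang n := by positivity
      refine ⟨?_, by linarith⟩
      rw [hπ]
      nlinarith
    have h2 : Real.cos (Real.pi - (3 : ℝ) ^ i * ang n) = Real.cos ((3 : ℝ) ^ 0 * ang n) := by
      rw [Real.cos_pi_sub]
      exact heq
    have h3 := Real.injOn_cos h1 h0mem h2
    rw [hπ] at h3
    have h4 : ((3 : ℝ) ^ n - 1) * ang n - 3 ^ i * ang n - 3 ^ 0 * ang n
        = (3 ^ n - 1 - 3 ^ i - 1) * ang n := by ring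
    have h5 : (0 : ℝ) < (3 ^ n - 1 - 3 ^ i - 1) * ang n := mul_pos (by linarith) hθ
    linarith

lemma u_inj {n : ℕ} (hn : 2 ≤ n) {i j : ℕ} (hij : i < j) (hj : j < 2 * n) : u n i ≠ u n j := by
  intro heq
  have h1 : ∀ k, u n (i + k) = u n (j + k) := by
    intro k
    induction k with
    | zero => exact heq
    | succ k ih => rw [← add_assoc, ← add_assoc, ← eval_T_u, ← eval_T_u, ih]
  have h2 := h1 (2 * n - i)
  have h3 : i + (2 * n - i) = 0 + 2 * n := by omega
  have h4 : j + (2 * n - i) = (j - i) + 2 * n := by omega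
  rw [h3, h4, u_add_two hn, u_add_two hn] at h2
  exact u_ne hn (by omega) (by omega) h2.symm

/-- the set -/
noncomputable def S (n : ℕ) : Finset ℝ := (Finset.range (2 * n)).image (u n)

lemma card_S {n : ℕ} (hn : 2 ≤ n) : (S n).card = 2 * n := by
  rw [S, Finset.card_image_of_injOn, Finset.card_range]
  intro i hi j hj hij
  simp only [Finset.coe_range, Set.mem_Iio] at hi hj
  rcases lt_trichotomy i j with h | h | h
  · exact absurd hij (u_inj hn h hj)
  · exact h
  · exact absurd hij.symm (u_inj hn h hi)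

lemma mem_S {n : ℕ} {x : ℝ} : x ∈ S n ↔ ∃ i < 2 * n, u n i = x := by
  simp [S]

lemma compress_T {n : ℕ} (hn : 2 ≤ n) : IsCompressing T (S n) := by
  refine ⟨u n 0, mem_S.2 ⟨0, by omega, rfl⟩, ?_⟩
  ext x
  rw [Finset.mem_coe, mem_S, Set.mem_ofPred_eq, card_S hn]
  simp only [iterate_T]

lemma compress_negT {n : ℕ} (hn : 2 ≤ n) (he : Even n) : IsCompressing (-T) (S n) := by
  refine ⟨u n 0, mem_S.2 ⟨0, by omega, rfl⟩, ?_⟩
  ext x
  rw [Finset.mem_coe, mem_S, Set.mem_ofPred_eq, card_S hn]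
  simp only [iterate_negT]
  constructor
  · rintro ⟨i, hi, rfl⟩
    rcases Nat.even_or_odd i with h | h
    · exact ⟨i, hi, by rw [h.neg_one_pow, one_mul]⟩
    · rcases lt_or_ge i n with hin | hin
      · refine ⟨i + n, by omega, ?_⟩
        rw [(h.add_even he).neg_one_pow, u_add hn]
        ring
      · obtain ⟨j, rfl⟩ : ∃ j, i = j + n := ⟨i - n, by omega⟩
        refine ⟨j, by omega, ?_⟩
        have hj : Odd j := by
          rcases Nat.even_or_odd j with h' | h'
          · exact absurd (h'.add he) (Nat.not_even_iff_odd.2 h)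
          · exact h'
        rw [hj.neg_one_pow, u_add hn]
        ring
  · rintro ⟨i, hi, rfl⟩
    rcases Nat.even_or_odd i with h | h
    · exact ⟨i, hi, by rw [h.neg_one_pow, one_mul]⟩
    · rcases lt_or_ge i n with hin | hin
      · refine ⟨i + n, by omega, ?_⟩
        rw [h.neg_one_pow, u_add hn]
        ring
      · obtain ⟨j, rfl⟩ : ∃ j, i = j + n := ⟨i - n, by omega⟩
        refine ⟨j, by omega, ?_⟩
        rw [h.neg_one_pow, u_add hn]
        ring

/-- For no `K ≥ 3` is there an integer `M(K)` such that every `K`-compressible set of `N ≥ M(K)`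
distinct reals is uniquely `K`-compressible. -/
theorem result (K : ℕ) (hK : 3 ≤ K) :
    ¬ ∃ M : ℕ, ∀ N : ℕ, M ≤ N → ∀ S : Finset ℝ, S.card = N → IsCompressible K S →
      AtMostOneCompressing K S := by
  rintro ⟨M, hM⟩
  have hn : 2 ≤ 2 * M + 2 := by omega
  have hne : T ≠ -T := by
    intro h
    have := congrArg (fun p : ℝ[X] => p.eval 1) h
    simp only [eval_negT, eval_T] at this
    norm_num at this
  have hneg : (-T).natDegree = 3 := by rw [natDegree_neg, natDegree_T]
  have hT := natDegree_T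
  refine hne (hM _ (by omega) (S (2 * M + 2)) (card_S hn) ⟨T, by omega, compress_T hn⟩ T (-T)
    (by omega) (by omega) (by omega) (by omega) (compress_T hn) (compress_negT hn ?_))
  exact ⟨M + 1, by ring⟩

end Pool.Agent.Results.MP_29b953_an.SignedCubic
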